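import Pool.Agent.N422.NWS.Stm

/-! Project NWS, part MPOL (helper249): polynomials for all sites. -/

set_option autoImplicit false

open Finset

namespace Pool.Agent.Run7.h249.NW

open Pool.Agent.N422.NW Pool.Agent.N422.NWS

/-- `z ^ n * G z` is a polynomial away from `0`. -/
def IsP (n : ℕ) (G : ℂ → ℂ) : Prop := ∃ P : Polynomial ℂ, ∀ z : ℂ, z ≠ 0 → P.eval z = z ^ n * G z

lemma IsP.mono {n m : ℕ} {G : ℂ → ℂ} (h : IsP n G) (hnm : n ≤ m) : IsP m G := by
  obtain ⟨P, hP⟩ := h
  refine ⟨Polynomial.X ^ (m - n) * P, fun z hz => ?_⟩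
  rw [Polynomial.eval_mul, Polynomial.eval_pow, Polynomial.eval_X, hP z hz, ← mul_assoc, ← pow_add,
    Nat.sub_add_cancel hnm]

lemma IsP.const (c : ℂ) : IsP 0 (fun _ => c) := ⟨Polynomial.C c, fun z _ => by simp⟩

lemma IsP.mul {n m : ℕ} {G H : ℂ → ℂ} (h1 : IsP n G) (h2 : IsP m H) : IsP (n + m) (fun z => G z * H z) := by
  obtain ⟨P, hP⟩ := h1
  obtain ⟨Q, hQ⟩ := h2
  refine ⟨P * Q, fun z hz => ?_⟩
  rw [Polynomial.eval_mul, hP z hz, hQ z hz, pow_add]
  ring

lemma IsP.zero (n : ℕ) : IsP n (fun _ => 0) := ⟨0, fun z _ => by simp⟩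

lemma IsP.add {n : ℕ} {G H : ℂ → ℂ} (h1 : IsP n G) (h2 : IsP n H) : IsP n (fun z => G z + H z) := by
  obtain ⟨P, hP⟩ := h1
  obtain ⟨Q, hQ⟩ := h2
  refine ⟨P + Q, fun z hz => ?_⟩
  rw [Polynomial.eval_add, hP z hz, hQ z hz]
  ring

lemma IsP.cmul {n : ℕ} {G : ℂ → ℂ} (c : ℂ) (h1 : IsP n G) : IsP n (fun z => c * G z) := by
  obtain ⟨P, hP⟩ := h1
  refine ⟨Polynomial.C c * P, fun z hz => ?_⟩
  rw [Polynomial.eval_mul, hP z hz, Polynomial.eval_C]
  ring

lemma IsP.sum {ι : Type} (s : Finset ι) {n : ℕ} {G : ι → ℂ → ℂ} (h : ∀ x ∈ s, IsP n (G x)) :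
    IsP n (fun z => ∑ x ∈ s, G x z) := by
  classical
  induction s using Finset.induction_on with
  | empty => simpa using IsP.zero n
  | insert a s ha ih =>
    have h1 := (h a (by simp)).add (ih fun x hx => h x (by simp [hx]))
    simpa [Finset.sum_insert ha] using h1

lemma IsP.prod {ι : Type} (s : Finset ι) {n : ι → ℕ} {G : ι → ℂ → ℂ} (h : ∀ x ∈ s, IsP (n x) (G x)) :
    IsP (∑ x ∈ s, n x) (fun z => ∏ x ∈ s, G x z) := by
  classical
  induction s using Finset.induction_on with
  | empty => simpa using IsP.const 1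
  | insert a s ha ih =>
    have h1 := (h a (by simp)).mul (ih fun x hx => h x (by simp [hx]))
    simpa [Finset.sum_insert ha, Finset.prod_insert ha] using h1

/-- coefficients -/
def mm {k : ℕ} : Option (Fin k) → Option (Fin k) → ℝ
  | some a, c => if c = some a then 1 else 0
  | none, none => 1
  | none, some _ => -1

/-- indicators -/
noncomputable def ii {N k : ℕ} (ω : Fin k → Finset (Fin N)) (i : Fin N) : Option (Fin k) → ℝ
  | some a => if i ∈ ω a then 1 else 0
  | none => 1

lemma lam_sum {N k : ℕ} (ω : Fin k → Finset (Fin N)) (i : Fin N) : ∑ c, lam ω i c = 1 := by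
  rw [Fintype.sum_option]
  simp only [lam]
  rw [Finset.sum_boole]
  ring

lemma lam_exp {N k : ℕ} (ω : Fin k → Finset (Fin N)) (i : Fin N) (d : Option (Fin k)) :
    lam ω i d = ∑ c, mm d c * ii ω i c := by
  rw [Fintype.sum_option]
  cases d with
  | none =>
    simp only [lam, mm, ii]
    rw [← Finset.mul_sum, Finset.sum_boole]
    ring
  | some a =>
    simp only [lam, mm, ii]
    rw [Finset.sum_eq_single a]
    · simp
    · intro b _ hb
      rw [if_neg, zero_mul]
      intro h
      exact hb (Option.some_injective _ h)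
    · intro h
      exact absurd (Finset.mem_univ _) h

lemma ii_prod {N k : ℕ} (ω : Fin k → Finset (Fin N)) (i : Fin N) (c : Option (Fin k)) :
    ii ω i c = ∏ a, (if c = some a then (if i ∈ ω a then 1 else 0) else 1) := by
  cases c with
  | none => simp [ii]
  | some b =>
    rw [Finset.prod_eq_single b]
    · simp [ii]
    · intro a _ hab
      rw [if_neg]
      intro h
      exact hab (Option.some_injective _ h).symm
    · intro h
      exact absurd (Finset.mem_univ _) h

lemma prod_ii {N k : ℕ} (ω : Fin k → Finset (Fin N)) (η : St N k) :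
    ∏ i, ii ω i (η i) = ∏ a, (if Ta η a ⊆ ω a then (1 : ℝ) else 0) := by
  simp only [ii_prod]
  rw [Finset.prod_comm]
  refine Finset.prod_congr rfl fun a _ => ?_
  split_ifs with h
  · refine Finset.prod_eq_one fun i _ => ?_
    split_ifs with h1 h2
    · rfl
    · exact absurd (h (by simp [Ta, h1])) h2
    · rfl
  · rw [Finset.not_subset] at h
    obtain ⟨i, hi, hi2⟩ := h
    refine Finset.prod_eq_zero (Finset.mem_univ i) ?_
    simp only [Ta, Finset.mem_filter, Finset.mem_univ, true_and] at hi
    rw [if_pos hi, if_neg hi2]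

/-- The expansion of a function of the places in `S`. -/
lemma expand {N k : ℕ} (S : Finset (Fin N)) (g : St N k → ℝ)
    (hg : ∀ γ γ' : St N k, (∀ i ∈ S, γ i = γ' i) → g γ = g γ') :
    ∃ C : St N k → ℝ, (∀ η, C η ≠ 0 → ∀ i, i ∉ S → η i = none) ∧
      ∀ ω : Fin k → Finset (Fin N), ∑ γ', (∏ i, lam ω i (γ' i)) * g γ' =
        ∑ η, C η * ∏ a, (if Ta η a ⊆ ω a then (1 : ℝ) else 0) := by
  classical
  set D : Finset (St N k) := Fintype.piFinset (fun i => if i ∈ S then univ else {none}) with hD
  have e1 : ∀ γ', g γ' = ∑ δ ∈ D, g δ * ∏ i, (if i ∈ S then (if γ' i = δ i then (1 : ℝ) else 0) else 1) := by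
    intro γ'
    set δ0 : St N k := fun i => if i ∈ S then γ' i else none with hδ0
    rw [Finset.sum_eq_single δ0]
    · have h1 : ∏ i, (if i ∈ S then (if γ' i = δ0 i then (1 : ℝ) else 0) else 1) = 1 := by
        refine Finset.prod_eq_one fun i _ => ?_
        by_cases hi : i ∈ S
        · simp [hδ0, hi]
        · simp [hi]
      rw [h1, mul_one]
      refine hg _ _ fun i hi => ?_
      simp [hδ0, hi]
    · intro δ hδ hne
      have : ∃ i, δ i ≠ δ0 i := by
        by_contra hcon
        push Not at hcon
        exact hne (funext hcon)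
      obtain ⟨i, hi⟩ := this
      have h2 := Fintype.mem_piFinset.1 hδ i
      by_cases his : i ∈ S
      · rw [Finset.prod_eq_zero (Finset.mem_univ i), mul_zero]
        rw [if_pos his, if_neg]
        intro h3
        apply hi
        simp [hδ0, his, h3]
      · exfalso
        apply hi
        simp only [his, if_false, Finset.mem_singleton] at h2
        simp [hδ0, his, h2]
    · intro h
      exfalso
      apply h
      rw [hD, Fintype.mem_piFinset]
      intro i
      by_cases his : i ∈ S
      · simp [his]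
      · simp [his, hδ0]
  refine ⟨fun η => ∑ δ ∈ D, g δ * ∏ i, (if i ∈ S then mm (δ i) (η i) else if η i = none then 1 else 0), ?_, ?_⟩
  · intro η hη i hi
    by_contra hcon
    apply hη
    refine Finset.sum_eq_zero fun δ _ => ?_
    rw [Finset.prod_eq_zero (Finset.mem_univ i), mul_zero]
    rw [if_neg hi, if_neg hcon]
  · intro ω
    have e2 : ∀ δ : St N k, ∑ γ' : St N k, (∏ i, lam ω i (γ' i)) *
        ∏ i, (if i ∈ S then (if γ' i = δ i then (1 : ℝ) else 0) else 1) =
        ∑ η : St N k, (∏ i, (if i ∈ S then mm (δ i) (η i) else if η i = none then 1 else 0)) *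
          ∏ i, ii ω i (η i) := by
      intro δ
      have e3 : ∑ γ' : St N k, (∏ i, lam ω i (γ' i)) *
          ∏ i, (if i ∈ S then (if γ' i = δ i then (1 : ℝ) else 0) else 1) =
          ∏ i, ∑ c, lam ω i c * (if i ∈ S then (if c = δ i then (1 : ℝ) else 0) else 1) := by
        rw [Finset.prod_univ_sum, Fintype.piFinset_univ]
        exact Finset.sum_congr rfl fun γ' _ => (Finset.prod_mul_distrib).symm
      have e4 : ∑ η : St N k, (∏ i, (if i ∈ S then mm (δ i) (η i) else if η i = none then (1 : ℝ) else 0)) *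
          ∏ i, ii ω i (η i) =
          ∏ i, ∑ c, (if i ∈ S then mm (δ i) c else if c = none then (1 : ℝ) else 0) * ii ω i c := by
        rw [Finset.prod_univ_sum, Fintype.piFinset_univ]
        exact Finset.sum_congr rfl fun γ' _ => (Finset.prod_mul_distrib).symm
      rw [e3, e4]
      refine Finset.prod_congr rfl fun i _ => ?_
      by_cases his : i ∈ S
      · simp only [his, if_true]
        rw [← lam_exp]
        simp
      · simp only [his, if_false, mul_one]
        rw [lam_sum]
        simp [ii]
    calc ∑ γ', (∏ i, lam ω i (γ' i)) * g γ'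
        = ∑ γ' : St N k, ∑ δ ∈ D, g δ * ((∏ i, lam ω i (γ' i)) *
            ∏ i, (if i ∈ S then (if γ' i = δ i then (1 : ℝ) else 0) else 1)) := by
          refine Finset.sum_congr rfl fun γ' _ => ?_
          rw [e1 γ', Finset.mul_sum]
          refine Finset.sum_congr rfl fun δ _ => ?_
          ring
      _ = ∑ δ ∈ D, g δ * ∑ γ' : St N k, ((∏ i, lam ω i (γ' i)) *
            ∏ i, (if i ∈ S then (if γ' i = δ i then (1 : ℝ) else 0) else 1)) := by
          rw [Finset.sum_comm]
          refine Finset.sum_congr rfl fun δ _ => ?_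
          rw [Finset.mul_sum]
      _ = ∑ δ ∈ D, ∑ η : St N k, g δ *
            ((∏ i, (if i ∈ S then mm (δ i) (η i) else if η i = none then 1 else 0)) *
            ∏ i, ii ω i (η i)) := by
          refine Finset.sum_congr rfl fun δ _ => ?_
          rw [e2 δ, Finset.mul_sum]
      _ = _ := by
          rw [Finset.sum_comm]
          refine Finset.sum_congr rfl fun η _ => ?_
          rw [prod_ii, Finset.sum_mul]
          refine Finset.sum_congr rfl fun δ _ => ?_
          ring

theorem t_MPOL : S_MPOL := by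
  classical
  intro N k n ν f hf K hK γ
  obtain ⟨m, S, g, hS, hg, hfg⟩ := hf
  have key : ∀ x : Fin m, IsP n (fun z => ∑ γ', KX (K z) γ γ' * (g x γ' : ℂ)) := by
    intro x
    obtain ⟨C, hC, hexp⟩ := expand (S x) (g x) (hg x)
    have e1 : (fun z => ∑ γ', KX (K z) γ γ' * (g x γ' : ℂ)) = fun z => ∑ η : St N k, (C η : ℂ) *
        ∏ a, ∑ T' ∈ univ.filter (fun T' : Finset (Fin N) => Ta η a ⊆ T'), K z (Ta γ a) T' := by
      funext z
      calc ∑ γ', KX (K z) γ γ' * (g x γ' : ℂ)
          = ∑ ω : Fin k → Finset (Fin N), (∏ a, K z (Ta γ a) (ω a)) *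
              ((∑ γ' : St N k, (∏ i, lam ω i (γ' i)) * g x γ' : ℝ) : ℂ) := by
            simp only [KX]
            simp only [Finset.sum_mul]
            rw [Finset.sum_comm]
            refine Finset.sum_congr rfl fun ω _ => ?_
            push_cast
            rw [Finset.mul_sum]
            refine Finset.sum_congr rfl fun γ' _ => ?_
            ring
        _ = ∑ ω : Fin k → Finset (Fin N), ∑ η : St N k, (C η : ℂ) *
              ∏ a, (K z (Ta γ a) (ω a) * (if Ta η a ⊆ ω a then 1 else 0)) := by
            refine Finset.sum_congr rfl fun ω _ => ?_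
            rw [hexp ω]
            push_cast
            rw [Finset.mul_sum]
            refine Finset.sum_congr rfl fun η _ => ?_
            rw [Finset.prod_mul_distrib]
            have h9 : ∏ x, (((if Ta η x ⊆ ω x then (1 : ℝ) else 0 : ℝ)) : ℂ) =
                ∏ x, (if Ta η x ⊆ ω x then (1 : ℂ) else 0) :=
              Finset.prod_congr rfl fun a _ => by split_ifs <;> simp
            rw [h9]
            ring
        _ = ∑ η : St N k, (C η : ℂ) * ∏ a, ∑ T' : Finset (Fin N),
              (K z (Ta γ a) T' * (if Ta η a ⊆ T' then 1 else 0)) := by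
            rw [Finset.sum_comm]
            refine Finset.sum_congr rfl fun η _ => ?_
            rw [Finset.prod_univ_sum, Fintype.piFinset_univ, Finset.mul_sum]
        _ = _ := by
            refine Finset.sum_congr rfl fun η _ => ?_
            congr 1
            refine Finset.prod_congr rfl fun a _ => ?_
            rw [Finset.sum_filter]
            refine Finset.sum_congr rfl fun T' _ => ?_
            split_ifs <;> simp
    rw [e1]
    refine IsP.sum _ fun η _ => ?_
    by_cases hη : C η = 0
    · rw [hη]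
      simpa using IsP.zero n
    · refine IsP.cmul _ (IsP.mono (IsP.prod univ (n := fun a => ∑ i ∈ Ta η a, ν i) fun a _ => hK _ _) ?_)
      have h1 : ∑ a, ∑ i ∈ Ta η a, ν i ≤ ∑ i ∈ S x, ν i := by
        rw [← Finset.sum_biUnion]
        · refine Finset.sum_le_sum_of_subset ?_
          intro i hi
          simp only [Finset.mem_biUnion, Finset.mem_univ, true_and, Ta, Finset.mem_filter] at hi
          obtain ⟨a, ha⟩ := hi
          by_contra hcon
          rw [hC η hη i hcon] at ha
          exact absurd ha (by simp)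
        · intro a _ b _ hab
          rw [Function.onFun, Finset.disjoint_left]
          intro i hi hi2
          simp only [Ta, Finset.mem_filter, Finset.mem_univ, true_and] at hi hi2
          rw [hi] at hi2
          exact hab (Option.some_injective _ hi2)
      exact h1.trans (hS x)
  obtain ⟨P, hP⟩ := IsP.sum univ (fun x _ => key x)
  refine ⟨P, fun z hz => ?_⟩
  rw [hP z hz]
  congr 1
  show ∑ x, ∑ γ', KX (K z) γ γ' * (g x γ' : ℂ) = _
  rw [Finset.sum_comm]
  refine Finset.sum_congr rfl fun γ' _ => ?_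
  rw [hfg γ']
  push_cast
  rw [Finset.mul_sum]

end Pool.Agent.Run7.h249.NW
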