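import Pool.Agent.N422.NWS.Stm
import Pool.Agent.N422.NW.JEN

/-! Project NWS, part MULTI (helper249): the inequality for all sites. -/

set_option autoImplicit false

open Finset

namespace Pool.Agent.Run7.h249.NW

open Pool.Agent.N422.NW Pool.Agent.N422.NWS

lemma lam_Ta {N k : ℕ} (γ : St N k) (i : Fin N) (c : Option (Fin k)) :
    lam (Ta γ) i c = if c = γ i then 1 else 0 := by
  cases c with
  | some a =>
    simp only [lam, Ta, Finset.mem_filter, Finset.mem_univ, true_and]
    by_cases h : γ i = some a
    · rw [if_pos h, if_pos h.symm]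
    · rw [if_neg h, if_neg (fun h2 => h h2.symm)]
  | none =>
    simp only [lam, Ta, Finset.mem_filter, Finset.mem_univ, true_and]
    cases h : γ i with
    | none =>
      simp
    | some b =>
      have h1 : (univ.filter (fun a : Fin k => some b = some a)) = {b} := by
        ext a
        simp only [Finset.mem_filter, Finset.mem_univ, true_and, Finset.mem_singleton]
        constructor
        · intro h2
          exact (Option.some_injective _ h2).symm
        · intro h2
          rw [h2]
      rw [h1]
      simp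

lemma KX_one {N k : ℕ} (K : Finset (Fin N) → Finset (Fin N) → ℂ) (hK : ∀ T T', K T T' = if T' = T then 1 else 0)
    (γ γ' : St N k) : KX K γ γ' = if γ' = γ then 1 else 0 := by
  classical
  unfold KX
  rw [Finset.sum_eq_single (Ta γ)]
  · have h1 : ∏ a, K (Ta γ a) (Ta γ a) = 1 := Finset.prod_eq_one fun a _ => by rw [hK, if_pos rfl]
    rw [h1, one_mul]
    simp only [lam_Ta]
    by_cases h : γ' = γ
    · rw [if_pos h, h]
      simp
    · rw [if_neg h]
      have : ∃ i, γ' i ≠ γ i := by
        by_contra hcon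
        push Not at hcon
        exact h (funext hcon)
      obtain ⟨i, hi⟩ := this
      rw [Finset.prod_eq_zero (Finset.mem_univ i) (by rw [if_neg hi])]
      simp
  · intro ω _ hω
    have : ∃ a, ω a ≠ Ta γ a := by
      by_contra hcon
      push Not at hcon
      exact hω (funext hcon)
    obtain ⟨a, ha⟩ := this
    rw [Finset.prod_eq_zero (Finset.mem_univ a) (by rw [hK, if_neg ha]), zero_mul]
  · intro h
    exact absurd (Finset.mem_univ _) h

theorem t_MULTI (h1 : S_GEN) (h2 : S_MPOL) (h3 : S_ABS) : S_MULTI := by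
  classical
  intro N k n u ν t Z K Kr φ LB f hu ht hZ hf hlev hK1 hKp hKb hLB
  have hpsi : ∀ w : ℂ, ‖w‖ = 1 → ‖psi (Real.exp (-t)) w‖ = 1 := (t_AV 0 t ht).1
  have hmu : ∀ γ : St N k, 0 ≤ muU u γ := by
    intro γ
    refine Finset.prod_nonneg fun i _ => ?_
    cases γ i with
    | none =>
      simp only [mu1u]
      have := (hu i).2
      have h0 : 0 ≤ (k : ℝ) * u i := mul_nonneg (Nat.cast_nonneg _) (hu i).1
      linarith
    | some a => exact (hu i).1
  have hsph : ∀ w ∈ Metric.sphere (0 : ℂ) |(1 : ℝ)|, ‖w‖ = 1 := by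
    intro w hw
    rw [mem_sphere_zero_iff_norm, abs_one] at hw
    exact hw
  have key := h1 N k n (muU u) f t (fun z => KX (K z)) (fun z γ => ∏ a, φ z (Ta γ a))
    (fun γ' => Z ^ k * Real.exp (∑ i, (20 * k ^ 2 * u i ^ 2 + if γ' i = none then 0 else 2 * k * u i)) - 1)
    (fun γ => ∑ a, LB (Ta γ a)) hmu hf ht ?_ (h2 N k n ν f hlev K hKp) ?_ ?_
  · exact key
  · intro γ γ'
    exact KX_one _ hK1 γ γ'
  · intro z hz
    obtain ⟨g1, g2, g3⟩ := hKb z hz
    refine ⟨fun γ => Finset.prod_pos fun a _ => g2 _, fun γ' => ?_⟩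
    have h4 := h3 N k u Z (Kr z) (φ z) hu hZ (fun T T' => (g1 T T').2) (fun T => (g2 T).le) g3 γ'
    have h5 : KX (K z) = KX (N := N) (k := k) (fun T T' => (Kr z T T' : ℂ)) := by
      have : K z = fun T T' => (Kr z T T' : ℂ) := by
        funext T T'
        exact (g1 T T').1
      rw [this]
    rw [h5]
    refine h4.trans (le_of_eq ?_)
    ring
  · intro γ
    have e1 : Set.EqOn (fun w => Real.log (∏ a, φ (psi (Real.exp (-t)) w) (Ta γ a)))
        (fun w => ∑ a, Real.log (φ (psi (Real.exp (-t)) w) (Ta γ a))) (Metric.sphere 0 |(1 : ℝ)|) := by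
      intro w hw
      show Real.log _ = _
      rw [Real.log_prod]
      intro a _
      exact ((hKb _ (hpsi w (hsph w hw))).2.1 _).ne'
    constructor
    · rw [circleIntegrable_congr e1]
      have h6 := CircleIntegrable.sum (univ : Finset (Fin k))
        (f := fun a w => Real.log (φ (psi (Real.exp (-t)) w) (Ta γ a))) (fun a _ => (hLB (Ta γ a)).1)
      convert h6 using 1
      funext w
      rw [Finset.sum_apply]
    · rw [Real.circleAverage_congr_sphere e1, Real.circleAverage_fun_sum (fun a _ => (hLB (Ta γ a)).1)]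
      exact Finset.sum_le_sum fun a _ => (hLB (Ta γ a)).2

end Pool.Agent.Run7.h249.NW
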